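import Pool.Agent.Q172.JonesC.Tools

/-! # Jones's set function `T` when it is continuous: basic facts -/

open Set Topology TopologicalSpace

set_option linter.unusedSectionVars false
set_option linter.unusedVariables false

namespace Q172.JonesC

variable {S : Type*} [TopologicalSpace S]

/-- A subcontinuum: a nonempty compact connected subset. -/
def IsSubcontinuum (K : Set S) : Prop := IsCompact K ∧ IsConnected K

/-- Jones's set function `T`: the complement of the set of all points that lie in the interior of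
a subcontinuum disjoint from `A`. -/
def jonesT (A : Set S) : Set S :=
  {p | ∃ K : Set S, IsSubcontinuum K ∧ p ∈ interior K ∧ K ∩ A = ∅}ᶜ

theorem notMem_T {A : Set S} {p : S} :
    p ∉ jonesT A ↔ ∃ K : Set S, IsSubcontinuum K ∧ p ∈ interior K ∧ K ∩ A = ∅ := by
  simp [jonesT]

theorem subset_T (A : Set S) : A ⊆ jonesT A := by
  intro a ha
  by_contra h
  obtain ⟨K, -, h2, h3⟩ := notMem_T.mp h
  exact (eq_empty_iff_forall_notMem.mp h3) a ⟨interior_subset h2, ha⟩

theorem T_mono {A B : Set S} (h : A ⊆ B) : jonesT A ⊆ jonesT B := by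
  intro x hx
  by_contra hn
  obtain ⟨K, h1, h2, h3⟩ := notMem_T.mp hn
  have : x ∉ jonesT A := notMem_T.mpr ⟨K, h1, h2, by
    rw [eq_empty_iff_forall_notMem] at h3 ⊢
    exact fun y hy => h3 y ⟨hy.1, h hy.2⟩⟩
  exact this hx

theorem isClosed_T (A : Set S) : IsClosed (jonesT A) := by
  rw [← isOpen_compl_iff, isOpen_iff_mem_nhds]
  intro x hx
  obtain ⟨K, h1, h2, h3⟩ := notMem_T.mp hx
  refine Filter.mem_of_superset (isOpen_interior.mem_nhds h2) fun y hy => ?_
  exact notMem_T.mpr ⟨K, h1, hy, h3⟩

/-- `T A` misses the interior of a subcontinuum that misses `A`. -/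
theorem T_disj {A K : Set S} (hK : IsSubcontinuum K) (h : K ∩ A = ∅) {z : S}
    (hz : z ∈ interior K) : z ∉ jonesT A := notMem_T.mpr ⟨K, hK, hz, h⟩

theorem IsSubcontinuum.union {K L : Set S} (hK : IsSubcontinuum K) (hL : IsSubcontinuum L)
    (h : (K ∩ L).Nonempty) : IsSubcontinuum (K ∪ L) :=
  ⟨hK.1.union hL.1, IsConnected.union h hK.2 hL.2⟩

variable [CompactSpace S] [T2Space S] [ConnectedSpace S]

theorem IsSubcontinuum.isClosed {K : Set S} (hK : IsSubcontinuum K) : IsClosed K := hK.1.isClosed

theorem isSubcontinuum_univ : IsSubcontinuum (univ : Set S) := ⟨isCompact_univ, isConnected_univ⟩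

theorem isSubcontinuum_closure {Y : Set S} (h : IsPreconnected Y) (hne : Y.Nonempty) :
    IsSubcontinuum (closure Y) :=
  ⟨isClosed_closure.isCompact, ⟨hne.closure, h.closure⟩⟩

/-- A nonempty closed set as an element of the hyperspace. -/
def mkNC (A : Set S) (hA : IsClosed A) (hne : A.Nonempty) : NonemptyCompacts S :=
  ⟨⟨A, hA.isCompact⟩, hne⟩

@[simp] theorem coe_mkNC (A : Set S) (hA : IsClosed A) (hne : A.Nonempty) :
    (mkNC A hA hne : Set S) = A := rfl

section cont

variable {τ : NonemptyCompacts S → NonemptyCompacts S}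
  (hτ : Continuous τ) (hc : ∀ A : NonemptyCompacts S, (τ A : Set S) = jonesT (A : Set S))

include hτ hc

/-- The value of `T` at a closed set is controlled by its values at the finite subsets of any set
whose closure contains it. -/
theorem fin_limit {X F B : Set S} (hF : IsClosed F) (hFX : F ⊆ closure X) (hB : IsClosed B)
    (h : ∀ A : Set S, A.Finite → A.Nonempty → A ⊆ X → jonesT A ⊆ B) : jonesT F ⊆ B := by
  rcases F.eq_empty_or_nonempty with rfl | hne
  · -- `T ∅ = ∅`
    intro x hx
    exact (T_disj (A := ∅) isSubcontinuum_univ (inter_empty _) (by simp) hx).elim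
  have hclosed : IsClosed {A : NonemptyCompacts S | (τ A : Set S) ⊆ B} :=
    (NonemptyCompacts.isClosed_subsets_of_isClosed hB).preimage hτ
  have hmem : mkNC F hF hne ∈ closure {K : NonemptyCompacts S | (K : Set S).Finite ∧ ↑K ⊆ X} := by
    rw [NonemptyCompacts.closure_finite_subsets]
    exact hFX
  have hsub : {K : NonemptyCompacts S | (K : Set S).Finite ∧ ↑K ⊆ X} ⊆
      {A : NonemptyCompacts S | (τ A : Set S) ⊆ B} := by
    rintro K ⟨hK1, hK2⟩
    show (τ K : Set S) ⊆ B
    rw [hc]
    exact h K hK1 K.nonempty hK2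
  have := closure_minimal hsub hclosed hmem
  have h2 : (τ (mkNC F hF hne) : Set S) ⊆ B := this
  rw [hc] at h2
  exact h2

/-- (F1) -/
theorem T_frontier {K F : Set S} (hK : IsSubcontinuum K) (hF : IsClosed F)
    (hFK : F ⊆ closure Kᶜ) : jonesT F ⊆ (interior K)ᶜ := by
  refine fin_limit hτ hc hF hFK isOpen_interior.isClosed_compl fun A _ _ hA x hx hxK => ?_
  refine T_disj hK ?_ hxK hx
  rw [eq_empty_iff_forall_notMem]
  exact fun y hy => hA hy.2 hy.1

/-- If `T F` meets the interior of a subcontinuum, so does `F`. -/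
theorem T_frontier' {K : Set S} (hK : IsSubcontinuum K) {x z : S} (hx : x ∈ interior K)
    (hz : x ∈ jonesT {z}) : z ∈ interior K := by
  by_contra h
  have : ({z} : Set S) ⊆ closure Kᶜ := by
    rw [singleton_subset_iff, closure_compl]
    exact h
  exact T_frontier hτ hc hK isClosed_singleton this hz hx

theorem T_idem {F : Set S} (hF : IsClosed F) : jonesT (jonesT F) = jonesT F := by
  apply Subset.antisymm _ (subset_T _)
  intro x hx
  by_contra hn
  obtain ⟨K, h1, h2, h3⟩ := notMem_T.mp hn
  have hsub : jonesT F ⊆ closure Kᶜ := by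
    rw [closure_compl]
    exact fun y hy hyK => T_disj h1 h3 hyK hy
  exact (T_frontier hτ hc h1 (isClosed_T F) hsub) hx h2

theorem T_trans {x y : S} (h : y ∈ jonesT {x}) : jonesT {y} ⊆ jonesT {x} := by
  have h1 : jonesT {y} ⊆ jonesT (jonesT {x}) := T_mono (singleton_subset_iff.mpr h)
  rwa [T_idem hτ hc isClosed_singleton] at h1

/-- The core of the separation lemma. -/
theorem sep_core {F K O : Set S} (hF : IsClosed F) (hK : IsSubcontinuum K) (hO : IsOpen O) {z : S}
    (hzK : z ∈ interior K) (hzO : z ∈ O) (hd : Disjoint (K ∩ closure O) F)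
    (hfr : Disjoint (frontier O) (jonesT F)) : z ∉ jonesT F := by
  by_cases hKO : K ⊆ O
  · refine notMem_T.mpr ⟨K, hK, hzK, ?_⟩
    rw [← disjoint_iff_inter_eq_empty]
    exact hd.mono_left (show K ⊆ K ∩ closure O from fun x hx => ⟨hx, subset_closure (hKO hx)⟩)
  -- finitely many continua cover the frontier
  have hcov : ∀ b ∈ frontier O, ∃ L : Set S, IsSubcontinuum L ∧ b ∈ interior L ∧ L ∩ jonesT F = ∅ := by
    intro b hb
    apply notMem_T.mp
    rw [T_idem hτ hc hF]
    exact fun h => disjoint_left.mp hfr hb h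
  choose! L hL1 hL2 hL3 using hcov
  obtain ⟨s, hs, hs2⟩ := (isClosed_frontier (s := O)).isCompact.elim_nhds_subcover
    (fun b => interior (L b)) (fun b hb => isOpen_interior.mem_nhds (hL2 b hb))
  set Y : Set S := (K ∩ closure O) ∪ ⋃ b ∈ s, L b with hY
  have hYc : IsClosed Y := (hK.isClosed.inter isClosed_closure).union
    (isClosed_biUnion_finset fun b hb => (hL1 b (hs b hb)).isClosed)
  have hzY : z ∈ interior Y := by
    rw [mem_interior]
    refine ⟨interior K ∩ O, ?_, isOpen_interior.inter hO, hzK, hzO⟩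
    exact fun x hx => Or.inl ⟨interior_subset hx.1, subset_closure hx.2⟩
  have hint := interior_component hYc (t := L '' (s : Set S)) (s.finite_toSet.image _) (by
      rintro _ ⟨b, hb, rfl⟩
      refine ⟨fun x hx => Or.inr (mem_iUnion₂.mpr ⟨b, hb, hx⟩), (hL1 b (hs b hb)).2.isPreconnected⟩) (by
      intro y hy
      rcases hy with hy | hy
      · obtain ⟨w, hw1, hw2⟩ := bump hK.isClosed hK.2.isPreconnected hy hKO hO
        obtain ⟨b, hb, hwb⟩ := mem_iUnion₂.mp (hs2 hw2)
        refine ⟨L b, ⟨b, hb, rfl⟩, w, ?_, interior_subset hwb⟩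
        exact (connectedComponentIn_mono y (subset_union_left : K ∩ closure O ⊆ Y)) hw1
      · obtain ⟨b, hb, hyb⟩ := mem_iUnion₂.mp hy
        exact ⟨L b, ⟨b, hb, rfl⟩, y, mem_connectedComponentIn (Or.inr hy), hyb⟩) hzY
  have hcl : IsClosed (connectedComponentIn Y z) := by
    have h1 : closure (connectedComponentIn Y z) ⊆ connectedComponentIn Y z := by
      apply IsPreconnected.subset_connectedComponentIn
      · exact isPreconnected_connectedComponentIn.closure
      · exact subset_closure (mem_connectedComponentIn (interior_subset hzY))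
      · exact closure_minimal (connectedComponentIn_subset Y z) hYc
    exact closure_subset_iff_isClosed.mp h1
  refine notMem_T.mpr ⟨connectedComponentIn Y z, ⟨hcl.isCompact,
    ⟨⟨z, mem_connectedComponentIn (interior_subset hzY)⟩, isPreconnected_connectedComponentIn⟩⟩,
    hint, ?_⟩
  rw [eq_empty_iff_forall_notMem]
  rintro x ⟨hx1, hx2⟩
  rcases connectedComponentIn_subset Y z hx1 with h | h
  · exact disjoint_left.mp hd h hx2
  · obtain ⟨b, hb, hxb⟩ := mem_iUnion₂.mp h
    exact (eq_empty_iff_forall_notMem.mp (hL3 b (hs b hb))) x ⟨hxb, subset_T F hx2⟩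

/-- Separation lemma, first part. -/
theorem sep_nonempty {F D D' : Set S} (hF : IsClosed F) (hD : IsClosed D) (hD' : IsClosed D')
    (hdis : Disjoint D D') (hun : D ∪ D' = jonesT F) (hne : D.Nonempty) : (F ∩ D).Nonempty := by
  by_contra hcon
  obtain ⟨O, O', hO, hO', hDO, hDO', hOO'⟩ := SeparatedNhds.of_isCompact_isCompact hD.isCompact
    hD'.isCompact hdis
  have hclO : Disjoint (closure O) D' :=
    (hOO'.closure_left hO').mono_right hDO'
  obtain ⟨d, hd⟩ := hne
  have hfr : Disjoint (frontier O) (jonesT F) := by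
    rw [← hun, hO.frontier_eq, disjoint_left]
    rintro x ⟨hx1, hx2⟩ (hx | hx)
    · exact hx2 (hDO hx)
    · exact disjoint_left.mp hclO hx1 hx
  refine sep_core hτ hc hF isSubcontinuum_univ hO (z := d) (by simp) (hDO hd) ?_ hfr ?_
  · rw [univ_inter, disjoint_left]
    intro x hx hxF
    have : x ∈ D ∪ D' := by rw [hun]; exact subset_T F hxF
    rcases this with h | h
    · exact hcon ⟨x, hxF, h⟩
    · exact disjoint_left.mp hclO hx h
  · rw [← hun]; exact Or.inl hd

/-- Separation lemma, second part. -/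
theorem sep_left {F D D' : Set S} (hF : IsClosed F) (hD : IsClosed D) (hD' : IsClosed D')
    (hdis : Disjoint D D') (hun : D ∪ D' = jonesT F) : D ⊆ jonesT (F ∩ D) := by
  obtain ⟨O, O', hO, hO', hDO, hDO', hOO'⟩ := SeparatedNhds.of_isCompact_isCompact hD.isCompact
    hD'.isCompact hdis
  have hclO : Disjoint (closure O) D' :=
    (hOO'.closure_left hO').mono_right hDO'
  have hfr : Disjoint (frontier O) (jonesT F) := by
    rw [← hun, hO.frontier_eq, disjoint_left]
    rintro x ⟨hx1, hx2⟩ (hx | hx)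
    · exact hx2 (hDO hx)
    · exact disjoint_left.mp hclO hx1 hx
  intro d hd
  by_contra hn
  obtain ⟨K, h1, h2, h3⟩ := notMem_T.mp hn
  refine sep_core hτ hc hF h1 hO h2 (hDO hd) ?_ hfr ?_
  · rw [disjoint_left]
    rintro x ⟨hxK, hx⟩ hxF
    have : x ∈ D ∪ D' := by rw [hun]; exact subset_T F hxF
    rcases this with h | h
    · exact (eq_empty_iff_forall_notMem.mp h3) x ⟨hxK, hxF, h⟩
    · exact disjoint_left.mp hclO hx h
  · rw [← hun]; exact Or.inl hd

/-- `T {x}` is a subcontinuum. -/
theorem T_singleton_continuum (x : S) : IsSubcontinuum (jonesT {x}) := by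
  refine ⟨(isClosed_T _).isCompact, ⟨x, subset_T _ rfl⟩, ?_⟩
  rw [isPreconnected_closed_iff]
  intro u v hu hv huv hne1 hne2
  by_contra hcon
  have hdis : Disjoint (jonesT {x} ∩ u) (jonesT {x} ∩ v) := by
    rw [disjoint_left]
    rintro y ⟨hy1, hy2⟩ ⟨-, hy3⟩
    exact hcon ⟨y, hy1, hy2, hy3⟩
  have hun : (jonesT {x} ∩ u) ∪ (jonesT {x} ∩ v) = jonesT {x} := by
    rw [← inter_union_distrib_left]
    exact inter_eq_left.mpr huv
  obtain ⟨a, ha1, ha2⟩ := sep_nonempty hτ hc isClosed_singleton ((isClosed_T _).inter hu)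
    ((isClosed_T _).inter hv) hdis hun hne1
  obtain ⟨b, hb1, hb2⟩ := sep_nonempty hτ hc isClosed_singleton ((isClosed_T _).inter hv)
    ((isClosed_T _).inter hu) hdis.symm (by rw [union_comm]; exact hun) hne2
  rw [mem_singleton_iff] at ha1 hb1
  subst ha1
  subst hb1
  exact disjoint_left.mp hdis ha2 hb2

end cont

end Q172.JonesC
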