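import Pool.Agent.Q172.JonesC.Basic

/-! # Continuity of Jones's set function `T` and indecomposability -/

open Set Topology TopologicalSpace

set_option linter.unusedSectionVars false
set_option linter.unusedVariables false

namespace Q172.JonesC

variable {S : Type*} [TopologicalSpace S] [CompactSpace S] [T2Space S] [ConnectedSpace S]

/-- The points `x` such that `T` is constant on `T {x}`. -/
def setE (S : Type*) [TopologicalSpace S] : Set S :=
  {x | ∀ y ∈ jonesT {x}, jonesT {y} = jonesT {x}}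

variable {τ : NonemptyCompacts S → NonemptyCompacts S}
  (hτ : Continuous τ) (hc : ∀ A : NonemptyCompacts S, (τ A : Set S) = jonesT (A : Set S))

include hτ hc

theorem P0 {p : S} {K : Set S} (hK : IsSubcontinuum K)
    (h : (interior K ∩ interior (jonesT {p})).Nonempty) : p ∈ interior K := by
  obtain ⟨x, hx1, hx2⟩ := h
  exact T_frontier' hτ hc hK hx1 (interior_subset hx2)

theorem lemN {p : S} {F D : Set S} (hF : IsClosed F) (hne : F.Nonempty) (hp : p ∉ jonesT F)
    (hD : IsOpen D) (hDne : D.Nonempty) (hDU : D ⊆ interior (jonesT {p}))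
    (h : ∀ x ∈ D, p ∈ jonesT (insert x F)) : False := by
  let 𝒦 : Set (Set S) := {K | IsSubcontinuum K ∧ p ∈ interior K ∧ K ∩ F = ∅}
  have hDK : ∀ K ∈ 𝒦, D ⊆ K := by
    rintro K ⟨h1, h2, h3⟩ x hx
    by_contra hxK
    refine notMem_T.mpr ⟨K, h1, h2, ?_⟩ (h x hx)
    rw [eq_empty_iff_forall_notMem]
    rintro y ⟨hy1, hy2 | hy2⟩
    · subst hy2; exact hxK hy1
    · exact (eq_empty_iff_forall_notMem.mp h3) y ⟨hy1, hy2⟩
  obtain ⟨K0, hK0⟩ := notMem_T.mp hp
  obtain ⟨m, -, hm⟩ := zorn_superset_nonempty 𝒦 (by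
    intro c hc𝒦 hch hcne
    have hDc : D ⊆ ⋂₀ c := subset_sInter fun K hK => hDK K (hc𝒦 hK)
    have hsc : IsSubcontinuum (⋂₀ c) := by
      refine ⟨(isClosed_sInter fun K hK => (hc𝒦 hK).1.isClosed).isCompact, hDne.mono hDc, ?_⟩
      exact preconnected_sInter hcne hch (fun K hK => (hc𝒦 hK).1.isClosed)
        (fun K hK => (hc𝒦 hK).1.2.isPreconnected)
    refine ⟨⋂₀ c, ⟨hsc, ?_, ?_⟩, fun s hs => sInter_subset_of_mem hs⟩
    · refine P0 hτ hc hsc ?_
      obtain ⟨d, hd⟩ := hDne
      exact ⟨d, mem_interior.mpr ⟨D, hDc, hD, hd⟩, hDU hd⟩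
    · obtain ⟨K, hK⟩ := hcne
      rw [eq_empty_iff_forall_notMem]
      rintro y ⟨hy1, hy2⟩
      exact (eq_empty_iff_forall_notMem.mp (hc𝒦 hK).2.2) y ⟨hy1 K hK, hy2⟩) K0 hK0
  have hp2 : p ∉ jonesT (closure mᶜ) := fun hcon =>
    (T_frontier hτ hc hm.prop.1 isClosed_closure Subset.rfl) hcon hm.prop.2.1
  obtain ⟨K', h1, h2, h3⟩ := notMem_T.mp hp2
  have hK'm : K' ⊆ interior m := by
    intro y hy
    by_contra hn
    exact (eq_empty_iff_forall_notMem.mp h3) y ⟨hy, by rw [closure_compl]; exact hn⟩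
  have hmK' : m ⊆ K' := by
    refine hm.2 ⟨h1, h2, ?_⟩ (hK'm.trans interior_subset)
    rw [eq_empty_iff_forall_notMem]
    rintro y ⟨hy1, hy2⟩
    exact (eq_empty_iff_forall_notMem.mp hm.prop.2.2) y ⟨interior_subset (hK'm hy1), hy2⟩
  have hmo : m ⊆ interior m := hmK'.trans hK'm
  have hclop : IsClopen m := ⟨hm.prop.1.isClosed, by
    rw [← interior_eq_iff_isOpen]; exact interior_subset.antisymm hmo⟩
  rcases isClopen_iff.mp hclop with h | h
  · have := interior_subset hm.prop.2.1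
    rw [h] at this
    exact this
  · obtain ⟨f, hf⟩ := hne
    exact (eq_empty_iff_forall_notMem.mp hm.prop.2.2) f ⟨by rw [h]; trivial, hf⟩

theorem lemA1 {p : S} {G : Set S} (hG : G.Finite) (hGne : G.Nonempty) (hp : p ∉ jonesT G)
    {x1 : S} (hx1 : x1 ∈ interior (jonesT {p})) :
    jonesT (insert x1 G) ⊆ jonesT G ∪ jonesT {x1} := by
  set g0 : NonemptyCompacts S := mkNC G hG.isClosed hGne with hg0
  let f : S → NonemptyCompacts S := fun x => {x} ⊔ g0
  have hfcoe : ∀ x, (f x : Set S) = insert x G := by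
    intro x
    show ((({x} : NonemptyCompacts S) ⊔ g0 : NonemptyCompacts S) : Set S) = _
    rw [NonemptyCompacts.coe_sup, NonemptyCompacts.coe_singleton, hg0, coe_mkNC, singleton_union]
  have hf : Continuous f := by
    show Continuous (fun x : S => ({x} : NonemptyCompacts S) ⊔ g0)
    fun_prop
  have hτf : ∀ x, (τ (f x) : Set S) = jonesT (insert x G) := by
    intro x; rw [hc, hfcoe]
  have hτg : (τ g0 : Set S) = jonesT G := by rw [hc, hg0, coe_mkNC]
  have hτs : ∀ x : S, (τ {x} : Set S) = jonesT {x} := by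
    intro x; rw [hc, NonemptyCompacts.coe_singleton]
  set Eq : Set S := {x | τ (f x) = τ g0 ⊔ τ {x}} with hEq
  have hEqc : IsClosed Eq := by
    refine isClosed_eq (hτ.comp hf) ?_
    exact continuous_const.sup (hτ.comp NonemptyCompacts.continuous_singleton)
  have hEqm : ∀ x, jonesT (insert x G) ⊆ jonesT G ∪ jonesT {x} → x ∈ Eq := by
    intro x hx
    show τ (f x) = τ g0 ⊔ τ {x}
    apply SetLike.coe_injective
    rw [NonemptyCompacts.coe_sup, hτf, hτg, hτs]
    refine Subset.antisymm hx (union_subset (T_mono (subset_insert _ _)) (T_mono ?_))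
    rw [singleton_subset_iff]
    exact mem_insert _ _
  have hEqm' : ∀ x ∈ Eq, jonesT (insert x G) ⊆ jonesT G ∪ jonesT {x} := by
    intro x hx
    have : τ (f x) = τ g0 ⊔ τ {x} := hx
    rw [← hτf, this, NonemptyCompacts.coe_sup, hτg, hτs]
  by_contra hx1E
  have hx1E' : x1 ∉ Eq := fun h => hx1E (hEqm' x1 h)
  set V : Set S := interior (jonesT {p}) ∩ Eqᶜ with hV
  have hVo : IsOpen V := isOpen_interior.inter hEqc.isOpen_compl
  obtain ⟨x2, hx2V, hx2p⟩ : ∃ x2 ∈ V, p ∉ jonesT (insert x2 G) := by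
    by_contra hcon
    push Not at hcon
    exact lemN hτ hc hG.isClosed hGne hp hVo ⟨x1, hx1, hx1E'⟩ inter_subset_left hcon
  obtain ⟨O, O', hO, hO', hTO, hpO', hOO'⟩ := SeparatedNhds.of_isCompact_isCompact
    (isClosed_T (insert x2 G)).isCompact (isCompact_singleton (x := p))
    (disjoint_singleton_right.mpr hx2p)
  have hpO : p ∉ closure O := fun h =>
    disjoint_left.mp (hOO'.closure_left hO') h (hpO' rfl)
  set N : Set S := V ∩ {x | jonesT (insert x G) ⊆ O} with hN
  have husc : ∀ W : Set S, IsOpen W → IsOpen {x | jonesT (insert x G) ⊆ W} := by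
    intro W hW
    have : {x | jonesT (insert x G) ⊆ W} =
        (fun x => τ (f x)) ⁻¹' {K : NonemptyCompacts S | (K : Set S) ⊆ W} := by
      ext x
      show jonesT (insert x G) ⊆ W ↔ (τ (f x) : Set S) ⊆ W
      rw [hτf]
    rw [this]
    exact (NonemptyCompacts.isOpen_subsets_of_isOpen hW).preimage (hτ.comp hf)
  have hNo : IsOpen N := hVo.inter (husc O hO)
  have hNne : N.Nonempty := ⟨x2, hx2V, hTO⟩
  -- components meet `G`
  have hcomp : ∀ x ∈ N, ∃ g ∈ G, g ∈ connectedComponentIn (jonesT (insert x G)) x := by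
    intro x hxN
    by_contra hcon
    push Not at hcon
    have hd : Disjoint (connectedComponentIn (jonesT (insert x G)) x) G :=
      disjoint_right.mpr hcon
    have hxT : x ∈ jonesT (insert x G) := subset_T _ (mem_insert _ _)
    obtain ⟨D, D', hD, hD', hdis, hun, hxD, hDG⟩ := split_component (isClosed_T _) hG.isClosed hxT hd
    have hFc : IsClosed (insert x G) := (hG.insert x).isClosed
    have h1 := sep_left hτ hc hFc hD hD' hdis hun
    have h2 := sep_left hτ hc hFc hD' hD hdis.symm (by rw [union_comm]; exact hun)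
    refine hxN.1.2 (hEqm x ?_)
    rw [← hun]
    refine union_subset (h1.trans ((T_mono ?_).trans subset_union_right))
      (h2.trans ((T_mono ?_).trans subset_union_left))
    · rintro y ⟨hy1 | hy1, hy2⟩
      · exact hy1
      · exact (disjoint_left.mp hDG hy2 hy1).elim
    · rintro y ⟨hy1 | hy1, hy2⟩
      · subst hy1; exact (disjoint_left.mp hdis hxD hy2).elim
      · exact hy1
  let Ng : S → Set S := fun g => {x ∈ N | g ∈ connectedComponentIn (jonesT (insert x G)) x}
  have hNg : ∀ g, ∀ x ∈ N, x ∈ closure (Ng g) → x ∈ Ng g := by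
    intro g x hxN hxcl
    refine ⟨hxN, ?_⟩
    by_contra hg
    have hxT : x ∈ jonesT (insert x G) := subset_T _ (mem_insert _ _)
    obtain ⟨D, D', hD, hD', hdis, hun, hxD, hDg⟩ := split_component (isClosed_T _)
      (isClosed_singleton (x := g)) hxT (disjoint_singleton_right.mpr hg)
    obtain ⟨V1, V2, hV1, hV2, hDV1, hDV2, hVV⟩ := SeparatedNhds.of_isCompact_isCompact
      hD.isCompact hD'.isCompact hdis
    have hV1' : IsOpen (V1 ∩ {g}ᶜ) := hV1.inter isOpen_compl_singleton
    have hxV1 : x ∈ V1 ∩ {g}ᶜ := ⟨hDV1 hxD, fun h => disjoint_left.mp hDg hxD h⟩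
    have hsub : jonesT (insert x G) ⊆ (V1 ∩ {g}ᶜ) ∪ V2 := by
      rw [← hun]
      rintro y (hy | hy)
      · exact Or.inl ⟨hDV1 hy, fun h => disjoint_left.mp hDg hy h⟩
      · exact Or.inr (hDV2 hy)
    have hW : IsOpen ((V1 ∩ {g}ᶜ) ∩ {y | jonesT (insert y G) ⊆ (V1 ∩ {g}ᶜ) ∪ V2}) :=
      hV1'.inter (husc _ (hV1'.union hV2))
    obtain ⟨y, ⟨hy1, hy2⟩, hyN, hyg⟩ := mem_closure_iff.mp hxcl _ hW ⟨hxV1, hsub⟩
    have hyT : y ∈ jonesT (insert y G) := subset_T _ (mem_insert _ _)
    have hpre : IsPreconnected (connectedComponentIn (jonesT (insert y G)) y) :=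
      isPreconnected_connectedComponentIn
    rcases isPreconnected_iff_subset_of_disjoint.mp hpre (V1 ∩ {g}ᶜ) V2 hV1' hV2
      ((connectedComponentIn_subset _ _).trans hy2) (by
        rw [eq_empty_iff_forall_notMem]
        rintro w ⟨-, hw1, hw2⟩
        exact disjoint_left.mp hVV hw1.1 hw2) with h | h
    · exact (h hyg).2 rfl
    · exact disjoint_left.mp hVV hy1.1 (h (mem_connectedComponentIn hyT))
  -- Baire category for finitely many closed sets
  obtain ⟨g, hgG, N', hN'o, hN'ne, hN'g⟩ : ∃ g ∈ G, ∃ N' : Set S, IsOpen N' ∧ N'.Nonempty ∧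
      N' ⊆ Ng g := by
    have hdense := dense_sUnion_interior_of_closed (X := S)
      (S := insert Nᶜ ((fun g => closure (Ng g)) '' G)) (by
        rintro s (rfl | ⟨g, -, rfl⟩)
        · exact hNo.isClosed_compl
        · exact isClosed_closure) ((hG.image _).insert _).countable (by
        rw [eq_univ_iff_forall]
        intro x
        by_cases hx : x ∈ N
        · obtain ⟨g, hg, hxg⟩ := hcomp x hx
          exact ⟨_, Or.inr ⟨g, hg, rfl⟩, subset_closure ⟨hx, hxg⟩⟩
        · exact ⟨_, Or.inl rfl, hx⟩)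
    obtain ⟨y, hyN, hy⟩ := hdense.inter_open_nonempty N hNo hNne
    rw [mem_iUnion₂] at hy
    obtain ⟨s, hs, hys⟩ := hy
    rcases hs with rfl | ⟨g, hg, rfl⟩
    · exact (interior_subset hys hyN).elim
    · refine ⟨g, hg, N ∩ interior (closure (Ng g)), hNo.inter isOpen_interior, ⟨y, hyN, hys⟩, ?_⟩
      rintro z ⟨hz1, hz2⟩
      exact hNg g z hz1 (interior_subset hz2)
  -- the connected set
  set Y : Set S := ⋃₀ ((fun x => connectedComponentIn (jonesT (insert x G)) x) '' N') with hY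
  have hYpre : IsPreconnected Y := by
    apply isPreconnected_sUnion g
    · rintro _ ⟨x, hx, rfl⟩
      exact (hN'g hx).2
    · rintro _ ⟨x, hx, rfl⟩
      exact isPreconnected_connectedComponentIn
  have hN'Y : N' ⊆ Y := by
    intro x hx
    exact ⟨_, ⟨x, hx, rfl⟩, mem_connectedComponentIn (subset_T _ (mem_insert _ _))⟩
  have hYO : Y ⊆ O := by
    rintro y ⟨_, ⟨x, hx, rfl⟩, hy⟩
    exact (hN'g hx).1.2 (connectedComponentIn_subset _ _ hy)
  have hYs : IsSubcontinuum (closure Y) := isSubcontinuum_closure hYpre (hN'ne.mono hN'Y)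
  have hpY : p ∈ interior (closure Y) := by
    refine P0 hτ hc hYs ?_
    obtain ⟨x, hx⟩ := hN'ne
    exact ⟨x, mem_interior.mpr ⟨N', hN'Y.trans subset_closure, hN'o, hx⟩, (hN'g hx).1.1.1⟩
  exact hpO (closure_mono hYO (interior_subset hpY))

theorem lemA4 {p : S} {K1 F' : Set S} (hK1 : IsSubcontinuum K1) (hpK1 : p ∈ interior K1)
    (hF' : IsClosed F') (hF'U : F' ⊆ interior (jonesT {p})) (hF'p : ∀ x ∈ F', p ∉ jonesT {x}) :
    p ∉ jonesT (closure K1ᶜ ∪ F') := by
  set B : Set S := jonesT (closure K1ᶜ) ∪ ⋃ x ∈ F', jonesT {x} with hB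
  have hτs : ∀ x : S, (τ {x} : Set S) = jonesT {x} := by
    intro x; rw [hc, NonemptyCompacts.coe_singleton]
  have hBc : IsClosed B := by
    refine (isClosed_T _).union ?_
    have h1 := NonemptyCompacts.isCompact_biUnion_coe_of_isCompact
      (hF'.isCompact.image (hτ.comp NonemptyCompacts.continuous_singleton))
    rw [biUnion_image] at h1
    have h2 : ⋃ x ∈ F', jonesT {x} =
        ⋃ y ∈ F', ((τ ∘ fun x => ({x} : NonemptyCompacts S)) y : Set S) := by
      refine iUnion₂_congr fun x _ => ?_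
      exact (hτs x).symm
    rw [h2]
    exact h1.isClosed
  have hpB : p ∉ B := by
    rintro (h | h)
    · exact (T_frontier hτ hc hK1 isClosed_closure Subset.rfl) h hpK1
    · obtain ⟨x, hx, hpx⟩ := mem_iUnion₂.mp h
      exact hF'p x hx hpx
  have key : ∀ A1 : Set S, A1.Finite → A1 ⊆ K1ᶜ → ∀ A2 : Set S, A2.Finite → A2 ⊆ F' →
      jonesT (A1 ∪ A2) ⊆ B := by
    intro A1 hA1 hA1K A2 hA2
    induction A2, hA2 using Set.Finite.induction_on with
    | empty =>
      intro _
      rw [union_empty]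
      exact (T_mono (hA1K.trans subset_closure)).trans subset_union_left
    | @insert a s ha hs ih =>
      intro hsub
      have ih' := ih ((subset_insert _ _).trans hsub)
      have haF : a ∈ F' := hsub (mem_insert _ _)
      have haB : jonesT {a} ⊆ B := fun y hy => Or.inr (mem_iUnion₂.mpr ⟨a, haF, hy⟩)
      rw [union_insert]
      rcases (A1 ∪ s).eq_empty_or_nonempty with h | h
      · rw [h, insert_empty_eq]; exact haB
      · exact (lemA1 hτ hc (hA1.union hs) h (fun hp => hpB (ih' hp)) (hF'U haF)).trans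
          (union_subset ih' haB)
  have := fin_limit hτ hc (X := K1ᶜ ∪ F') (F := closure K1ᶜ ∪ F') (B := B)
    (isClosed_closure.union hF') (by
      rw [closure_union]
      exact union_subset_union_right _ subset_closure) hBc (by
      intro A hA _ hAX
      have h1 := key (A ∩ K1ᶜ) (hA.subset inter_subset_left) inter_subset_right (A ∩ F')
        (hA.subset inter_subset_left) inter_subset_right
      rw [← inter_union_distrib_left, inter_eq_left.mpr hAX] at h1
      exact h1)
  exact fun h => hpB (this h)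

theorem isClosed_setE : IsClosed (setE S) := by
  have hτs : ∀ x : S, (τ {x} : Set S) = jonesT {x} := by
    intro x; rw [hc, NonemptyCompacts.coe_singleton]
  have hcs : Continuous fun x : S => τ {x} := hτ.comp NonemptyCompacts.continuous_singleton
  rw [← isOpen_compl_iff, isOpen_iff_mem_nhds]
  intro x hx
  have : ∃ y ∈ jonesT {x}, jonesT {y} ≠ jonesT {x} := by
    by_contra hcon
    push Not at hcon
    exact hx hcon
  obtain ⟨y, hy, hne⟩ := this
  have hopen : IsOpen {q : S × S | τ {q.2} ≠ τ {q.1}} := by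
    refine isOpen_ne_fun (hcs.comp continuous_snd) (hcs.comp continuous_fst)
  have hmem : (x, y) ∈ {q : S × S | τ {q.2} ≠ τ {q.1}} := by
    intro h
    apply hne
    have h' : τ {y} = τ {x} := h
    rw [← hτs, ← hτs, h']
  obtain ⟨V, W, hV, hW, hxV, hyW, hVW⟩ := isOpen_prod_iff.mp hopen x y hmem
  have hlsc : IsOpen {x' : S | ((τ {x'} : Set S) ∩ W).Nonempty} :=
    (NonemptyCompacts.isOpen_inter_nonempty_of_isOpen hW).preimage hcs
  have hx2 : x ∈ {x' : S | ((τ {x'} : Set S) ∩ W).Nonempty} := by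
    refine ⟨y, ?_, hyW⟩
    rw [hτs]; exact hy
  filter_upwards [hV.mem_nhds hxV, hlsc.mem_nhds hx2] with x' hx'V hx'W hx'E
  obtain ⟨y', hy'1, hy'2⟩ := hx'W
  rw [hτs] at hy'1
  have h1 := hx'E y' hy'1
  have h2 : τ {y'} ≠ τ {x'} := hVW (mk_mem_prod hx'V hy'2)
  apply h2
  apply SetLike.coe_injective
  rw [hτs, hτs, h1]

theorem exists_setE (z : S) : ∃ y ∈ jonesT {z}, y ∈ setE S := by
  let 𝒯 : Set (Set S) := {A | ∃ y ∈ jonesT {z}, A = jonesT {y}}
  obtain ⟨m, -, hm⟩ := zorn_superset_nonempty 𝒯 (by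
    intro c hc𝒯 hch hcne
    have hne : (⋂₀ c).Nonempty := by
      have := hcne.to_subtype
      apply IsCompact.nonempty_sInter_of_directed_nonempty_isCompact_isClosed
      · intro A hA B hB
        rcases hch.total hA hB with h | h
        · exact ⟨A, hA, Subset.rfl, h⟩
        · exact ⟨B, hB, h, Subset.rfl⟩
      · intro A hA
        obtain ⟨y, -, rfl⟩ := hc𝒯 hA
        exact ⟨y, subset_T _ rfl⟩
      · intro A hA
        obtain ⟨y, -, rfl⟩ := hc𝒯 hA
        exact (isClosed_T _).isCompact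
      · intro A hA
        obtain ⟨y, -, rfl⟩ := hc𝒯 hA
        exact isClosed_T _
    obtain ⟨w, hw⟩ := hne
    refine ⟨jonesT {w}, ⟨w, ?_, rfl⟩, ?_⟩
    · obtain ⟨A, hA⟩ := hcne
      obtain ⟨y, hy, rfl⟩ := hc𝒯 hA
      exact T_trans hτ hc hy (hw _ hA)
    · intro A hA
      obtain ⟨y, hy, rfl⟩ := hc𝒯 hA
      exact T_trans hτ hc (hw _ hA)) (jonesT {z}) ⟨z, subset_T _ rfl, rfl⟩
  obtain ⟨y, hy, rfl⟩ := hm.prop
  refine ⟨y, hy, fun w hw => ?_⟩
  apply Subset.antisymm (T_trans hτ hc hw)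
  exact hm.2 ⟨w, T_trans hτ hc hy hw, rfl⟩ (T_trans hτ hc hw)

/-- The last step: if the complement of a small continuum is not connected then the continuum
contains a set `T {z}`. -/
theorem lemCut {p : S} {K0 G₁ G₂ : Set S} (hK0 : IsSubcontinuum K0)
    (hK0U : K0 ⊆ interior (jonesT {p})) (h1 : IsOpen G₁) (h2 : IsOpen G₂)
    (hne1 : G₁.Nonempty) (hne2 : G₂.Nonempty) (hd : Disjoint G₁ G₂) (hun : K0ᶜ = G₁ ∪ G₂) :
    ∃ z, jonesT {z} ⊆ K0 := by
  obtain ⟨k, hk⟩ := hK0.2.nonempty
  have hG2K : ∀ x, x ∉ G₁ → x ∉ G₂ → x ∈ K0 := by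
    intro x hx1 hx2
    by_contra hx
    have : x ∈ K0ᶜ := hx
    rw [hun] at this
    rcases this with h | h
    · exact hx1 h
    · exact hx2 h
  have hK1 : ∀ x ∈ K0, x ∉ G₁ := fun x hx hx1 => by
    have : x ∈ K0ᶜ := by rw [hun]; exact Or.inl hx1
    exact this hx
  have hK2 : ∀ x ∈ K0, x ∉ G₂ := fun x hx hx1 => by
    have : x ∈ K0ᶜ := by rw [hun]; exact Or.inr hx1
    exact this hx
  have hcl2 : closure G₂ ⊆ G₁ᶜ := by
    refine closure_minimal (fun x hx hx1 => disjoint_left.mp hd hx1 hx) h1.isClosed_compl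
  -- `G₂` meets `U`
  have hG2U : (G₂ ∩ interior (jonesT {p})).Nonempty := by
    have hncl : ¬ IsClosed G₂ := by
      intro hcl
      rcases isClopen_iff.mp ⟨hcl, h2⟩ with h | h
      · exact hne2.ne_empty h
      · exact hK2 k hk (by rw [h]; trivial)
    have : ¬ closure G₂ ⊆ G₂ := fun h => hncl (closure_subset_iff_isClosed.mp h)
    obtain ⟨z, hz1, hz2⟩ := not_subset.mp this
    have hzK : z ∈ K0 := hG2K z (hcl2 hz1) hz2
    obtain ⟨w, hw1, hw2⟩ := mem_closure_iff.mp hz1 _ isOpen_interior (hK0U hzK)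
    exact ⟨w, hw2, hw1⟩
  -- the minimal continuum
  let 𝒜 : Set (Set S) := {A | IsClosed A ∧ IsPreconnected A ∧ G₂ ⊆ A ∧ A ⊆ G₁ᶜ}
  have hG1c : G₁ᶜ ∈ 𝒜 := by
    refine ⟨h1.isClosed_compl, ?_, fun x hx hx1 => disjoint_left.mp hd hx1 hx, Subset.rfl⟩
    exact preconnected_cut hK0.2.isPreconnected hK0.2.nonempty h2 h1 hd.symm
      (by rw [hun, union_comm])
  obtain ⟨A, -, hA⟩ := zorn_superset_nonempty 𝒜 (by
    intro c hc𝒜 hch hcne
    refine ⟨⋂₀ c, ⟨isClosed_sInter fun B hB => (hc𝒜 hB).1, ?_, ?_, ?_⟩,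
      fun s hs => sInter_subset_of_mem hs⟩
    · exact preconnected_sInter hcne hch (fun B hB => (hc𝒜 hB).1) (fun B hB => (hc𝒜 hB).2.1)
    · exact subset_sInter fun B hB => (hc𝒜 hB).2.2.1
    · obtain ⟨B, hB⟩ := hcne
      exact (sInter_subset_of_mem hB).trans (hc𝒜 hB).2.2.2) _ hG1c
  obtain ⟨hAc, hApre, hG2A, hAG1⟩ := hA.prop
  have hAs : IsSubcontinuum A := ⟨hAc.isCompact, hne2.mono hG2A, hApre⟩
  have hG2int : G₂ ⊆ interior A := interior_maximal hG2A h2
  have hpA : p ∈ interior A := by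
    obtain ⟨w, hw1, hw2⟩ := hG2U
    exact P0 hτ hc hAs ⟨w, hG2int hw1, hw2⟩
  by_cases hz : (closure Aᶜ ∩ closure G₂).Nonempty
  · obtain ⟨z, hz1, hz2⟩ := hz
    refine ⟨z, ?_⟩
    have hT1 : jonesT {z} ⊆ (interior A)ᶜ :=
      T_frontier hτ hc hAs isClosed_singleton (singleton_subset_iff.mpr hz1)
    have hG2c : IsSubcontinuum G₂ᶜ := by
      refine ⟨h2.isClosed_compl.isCompact, ⟨k, hK2 k hk⟩, ?_⟩
      exact preconnected_cut hK0.2.isPreconnected hK0.2.nonempty h1 h2 hd hun
    have hT2 : jonesT {z} ⊆ (interior G₂ᶜ)ᶜ :=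
      T_frontier hτ hc hG2c isClosed_singleton
        (singleton_subset_iff.mpr (by rw [compl_compl]; exact hz2))
    intro y hy
    have hy2 : y ∈ closure G₂ := by
      have := hT2 hy
      rwa [interior_compl, compl_compl] at this
    exact hG2K y (hcl2 hy2) (fun h => hT1 hy (hG2int h))
  · exfalso
    rw [not_nonempty_iff_eq_empty] at hz
    have hclG2 : closure G₂ ⊆ interior A := by
      intro y hy
      by_contra hn
      have : y ∈ closure Aᶜ ∩ closure G₂ := ⟨by rw [closure_compl]; exact hn, hy⟩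
      rw [hz] at this
      exact this
    have hW : ∀ z ∈ interior A, ∃ W : Set S, IsSubcontinuum W ∧ z ∈ interior W ∧
        W ⊆ interior A := by
      intro z hz
      have : z ∉ jonesT (closure Aᶜ) := fun h =>
        (T_frontier hτ hc hAs isClosed_closure Subset.rfl) h hz
      obtain ⟨W, hW1, hW2, hW3⟩ := notMem_T.mp this
      refine ⟨W, hW1, hW2, fun y hy => ?_⟩
      by_contra hn
      exact (eq_empty_iff_forall_notMem.mp hW3) y ⟨hy, by rw [closure_compl]; exact hn⟩
    let Θ : Set S := {z | ∃ W : Set S, IsSubcontinuum W ∧ p ∈ W ∧ z ∈ W ∧ W ⊆ interior A}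
    have hΘA : Θ ⊆ interior A := by
      rintro z ⟨W, -, -, hz, hW⟩
      exact hW hz
    -- points near `Θ`
    have hext : ∀ z ∈ interior A, ∀ W : Set S, IsSubcontinuum W → z ∈ interior W →
        W ⊆ interior A → (W ∩ Θ).Nonempty → W ⊆ Θ := by
      rintro z hz W hW1 hW2 hW3 ⟨w, hw, L, hL1, hL2, hL3, hL4⟩ y hy
      refine ⟨L ∪ W, hL1.union hW1 ⟨w, hL3, hw⟩, Or.inl hL2, Or.inr hy, union_subset hL4 hW3⟩
    have hΘo : IsOpen Θ := by
      rw [isOpen_iff_mem_nhds]
      intro z hz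
      obtain ⟨W, hW1, hW2, hW3⟩ := hW z (hΘA hz)
      refine Filter.mem_of_superset (mem_interior_iff_mem_nhds.mp hW2) ?_
      exact hext z (hΘA hz) W hW1 hW2 hW3 ⟨z, interior_subset hW2, hz⟩
    have hRo : IsOpen (interior A \ Θ) := by
      rw [isOpen_iff_mem_nhds]
      rintro z ⟨hz1, hz2⟩
      obtain ⟨W, hW1, hW2, hW3⟩ := hW z hz1
      refine Filter.mem_of_superset (mem_interior_iff_mem_nhds.mp hW2) fun y hy => ?_
      refine ⟨hW3 hy, fun hyΘ => hz2 ?_⟩
      exact hext z hz1 W hW1 hW2 hW3 ⟨y, hy, hyΘ⟩ (interior_subset hW2)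
    have hRU : ∀ z ∈ interior A \ Θ, z ∉ interior (jonesT {p}) := by
      rintro z ⟨hz1, hz2⟩ hzU
      obtain ⟨W, hW1, hW2, hW3⟩ := hW z hz1
      have : p ∈ interior W := P0 hτ hc hW1 ⟨z, hW2, hzU⟩
      exact hz2 ⟨W, hW1, interior_subset this, interior_subset hW2, hW3⟩
    have hRG2 : interior A \ Θ ⊆ G₂ := by
      intro z hz
      by_contra hn
      exact hRU z hz (hK0U (hG2K z (hAG1 (interior_subset hz.1)) hn))
    have hRc : IsClosed (interior A \ Θ) := by
      rw [← closure_subset_iff_isClosed]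
      intro z hz
      refine ⟨hclG2 (closure_mono hRG2 hz), fun hzΘ => ?_⟩
      obtain ⟨w, hw1, hw2⟩ := mem_closure_iff.mp hz _ hΘo hzΘ
      exact hw2.2 hw1
    have hpΘ : p ∈ Θ := by
      obtain ⟨W, hW1, hW2, hW3⟩ := hW p hpA
      exact ⟨W, hW1, interior_subset hW2, interior_subset hW2, hW3⟩
    have hR : interior A \ Θ = ∅ := by
      rcases isClopen_iff.mp ⟨hRc, hRo⟩ with h | h
      · exact h
      · exfalso
        have : p ∈ interior A \ Θ := by rw [h]; trivial
        exact this.2 hpΘ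
    have hcov : ∀ z ∈ closure G₂, ∃ L : Set S, IsSubcontinuum L ∧ p ∈ L ∧ z ∈ interior L ∧
        L ⊆ interior A := by
      intro z hz
      have hzA := hclG2 hz
      have hzΘ : z ∈ Θ := by
        by_contra hn
        have : z ∈ interior A \ Θ := ⟨hzA, hn⟩
        rw [hR] at this
        exact this
      obtain ⟨L, hL1, hL2, hL3, hL4⟩ := hzΘ
      obtain ⟨W, hW1, hW2, hW3⟩ := hW z hzA
      refine ⟨L ∪ W, hL1.union hW1 ⟨z, hL3, interior_subset hW2⟩, Or.inl hL2,
        interior_mono subset_union_right hW2, union_subset hL4 hW3⟩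
    choose! L hL1 hL2 hL3 hL4 using hcov
    obtain ⟨s, hs, hs2⟩ := (isClosed_closure (s := G₂)).isCompact.elim_nhds_subcover
      (fun b => interior (L b)) (fun b hb => isOpen_interior.mem_nhds (hL3 b hb))
    have hLpre : IsPreconnected (⋃₀ (L '' (s : Set S))) := by
      apply isPreconnected_sUnion p
      · rintro _ ⟨b, hb, rfl⟩
        exact hL2 b (hs b hb)
      · rintro _ ⟨b, hb, rfl⟩
        exact (hL1 b (hs b hb)).2.isPreconnected
    have hLc : IsClosed (⋃₀ (L '' (s : Set S))) := by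
      rw [sUnion_image]
      exact s.finite_toSet.isClosed_biUnion fun b hb => (hL1 b (hs b hb)).isClosed
    have hLA : ⋃₀ (L '' (s : Set S)) ⊆ interior A := by
      rintro y ⟨_, ⟨b, hb, rfl⟩, hy⟩
      exact hL4 b (hs b hb) hy
    have hG2L : G₂ ⊆ ⋃₀ (L '' (s : Set S)) := by
      intro y hy
      obtain ⟨b, hb, hyb⟩ := mem_iUnion₂.mp (hs2 (subset_closure hy))
      exact ⟨_, ⟨b, hb, rfl⟩, interior_subset hyb⟩
    have hAL : A ⊆ ⋃₀ (L '' (s : Set S)) := hA.2
      ⟨hLc, hLpre, hG2L, (hLA.trans interior_subset).trans hAG1⟩ (hLA.trans interior_subset)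
    have hAo : A ⊆ interior A := hAL.trans hLA
    have hclop : IsClopen A := ⟨hAc, by
      rw [← interior_eq_iff_isOpen]; exact interior_subset.antisymm hAo⟩
    obtain ⟨g, hg⟩ := hne1
    rcases isClopen_iff.mp hclop with h | h
    · exact hAs.2.nonempty.ne_empty h
    · exact hAG1 (by rw [h]; trivial : g ∈ A) hg

theorem T_eq_univ_indec (h : ∀ y : S, jonesT {y} = univ) {A B : Set S} (hA : IsSubcontinuum A)
    (hB : IsSubcontinuum B) (hAu : A ≠ univ) (hBu : B ≠ univ) : A ∪ B ≠ univ := by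
  intro hun
  obtain ⟨y, hy⟩ := (ne_univ_iff_exists_notMem A).mp hAu
  obtain ⟨b, hb⟩ := (ne_univ_iff_exists_notMem B).mp hBu
  have hbA : b ∈ interior A := by
    refine mem_interior.mpr ⟨Bᶜ, fun x hx => ?_, hB.isClosed.isOpen_compl, hb⟩
    have : x ∈ A ∪ B := by rw [hun]; trivial
    exact this.resolve_right hx
  have : b ∉ jonesT {y} := notMem_T.mpr ⟨A, hA, hbA, by
    rw [eq_empty_iff_forall_notMem]
    rintro x ⟨hx1, hx2⟩
    rw [mem_singleton_iff] at hx2
    subst hx2
    exact hy hx1⟩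
  exact this (by rw [h y]; trivial)

/-- If `T` is continuous for `S` and some `T {p}` has an interior point, then `S` is
indecomposable. -/
theorem indecomposable_of_continuous {p : S} (hp : (interior (jonesT {p})).Nonempty) {A B : Set S}
    (hA : IsSubcontinuum A) (hB : IsSubcontinuum B) (hAu : A ≠ univ) (hBu : B ≠ univ) :
    A ∪ B ≠ univ := by
  set M : Set S := jonesT {p} with hM
  have hMs : IsSubcontinuum M := T_singleton_continuum hτ hc p
  have hpU : p ∈ interior M := by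
    refine P0 hτ hc hMs ?_
    obtain ⟨x, hx⟩ := hp
    exact ⟨x, hx, hx⟩
  by_cases hcase : ∃ x ∈ setE S, p ∈ jonesT {x}
  · obtain ⟨x, hxE, hpx⟩ := hcase
    have hMx : M = jonesT {x} := hxE p hpx
    have hMy : ∀ y ∈ M, jonesT {y} = M := by
      intro y hy
      rw [hMx] at hy ⊢
      exact hxE y hy
    have hMo : M ⊆ interior M := by
      intro y hy
      refine T_frontier' hτ hc (x := p) hMs hpU ?_
      rw [hMy y hy]
      exact interior_subset hpU
    have hclop : IsClopen M := ⟨hMs.isClosed, by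
      rw [← interior_eq_iff_isOpen]; exact interior_subset.antisymm hMo⟩
    have hMu : M = univ := by
      rcases isClopen_iff.mp hclop with h | h
      · exact (hMs.2.nonempty.ne_empty h).elim
      · exact h
    refine T_eq_univ_indec hτ hc (fun y => ?_) hA hB hAu hBu
    rw [hMy y (by rw [hMu]; trivial), hMu]
  · exfalso
    push Not at hcase
    -- a closed set `G`
    obtain ⟨G, hGc, hGne, hGp, hGU⟩ : ∃ G : Set S, IsClosed G ∧ G.Nonempty ∧ p ∉ jonesT G ∧
        Gᶜ ⊆ interior M := by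
      by_cases hMu : M = univ
      · obtain ⟨e, -, he⟩ := exists_setE hτ hc p
        refine ⟨{e}, isClosed_singleton, singleton_nonempty _, hcase e he, ?_⟩
        rw [hMu, interior_univ]
        exact subset_univ _
      · refine ⟨closure Mᶜ, isClosed_closure, ?_, ?_, ?_⟩
        · obtain ⟨y, hy⟩ := (ne_univ_iff_exists_notMem M).mp hMu
          exact ⟨y, subset_closure hy⟩
        · exact fun h => (T_frontier hτ hc hMs isClosed_closure Subset.rfl) h hpU
        · rw [closure_compl, compl_compl]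
    obtain ⟨K1, hK1, hpK1, hK1G⟩ := notMem_T.mp hGp
    have hK1U : K1 ⊆ interior M := by
      have h1 : K1 ⊆ Gᶜ := fun x hx hxG =>
        (eq_empty_iff_forall_notMem.mp hK1G) x ⟨hx, hxG⟩
      exact h1.trans hGU
    have hK1u : K1 ≠ univ := by
      intro h
      obtain ⟨g, hg⟩ := hGne
      exact (eq_empty_iff_forall_notMem.mp hK1G) g ⟨by rw [h]; trivial, hg⟩
    have hA4 := lemA4 hτ hc (F' := setE S ∩ K1) hK1 hpK1 ((isClosed_setE hτ hc).inter hK1.isClosed)
      (inter_subset_right.trans hK1U) (fun x hx => hcase x hx.1)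
    obtain ⟨K0, hK0, hpK0, hK0F⟩ := notMem_T.mp hA4
    rw [eq_empty_iff_forall_notMem] at hK0F
    have hK01 : K0 ⊆ interior K1 := by
      intro x hx
      by_contra hn
      exact hK0F x ⟨hx, Or.inl (by rw [closure_compl]; exact hn)⟩
    have hK0E : ∀ x ∈ K0, x ∉ setE S := fun x hx hxE =>
      hK0F x ⟨hx, Or.inr ⟨hxE, interior_subset (hK01 hx)⟩⟩
    have hK0U : K0 ⊆ interior M := (hK01.trans interior_subset).trans hK1U
    have hUK0 : ¬ interior M ⊆ K0 := by
      intro h
      have hK1o : K1 ⊆ interior K1 := (hK1U.trans h).trans hK01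
      have hclop : IsClopen K1 := ⟨hK1.isClosed, by
        rw [← interior_eq_iff_isOpen]; exact interior_subset.antisymm hK1o⟩
      rcases isClopen_iff.mp hclop with h | h
      · exact hK1.2.nonempty.ne_empty h
      · exact hK1u h
    obtain ⟨w, hwU, hwK0⟩ := not_subset.mp hUK0
    have hnpre : ¬ IsPreconnected K0ᶜ := by
      intro hpre
      have hs : IsSubcontinuum (closure K0ᶜ) := isSubcontinuum_closure hpre ⟨w, hwK0⟩
      have : p ∈ interior (closure K0ᶜ) := by
        refine P0 hτ hc hs ⟨w, mem_interior.mpr ⟨K0ᶜ, subset_closure, ?_, hwK0⟩, hwU⟩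
        exact hK0.isClosed.isOpen_compl
      have h2 := interior_subset this
      rw [closure_compl] at h2
      exact h2 hpK0
    rw [IsPreconnected] at hnpre
    push Not at hnpre
    obtain ⟨u, v, hu, hv, huv, hu1, hv1, huv1⟩ := hnpre
    obtain ⟨z, hz⟩ := lemCut hτ hc (p := p) (K0 := K0) (G₁ := K0ᶜ ∩ u) (G₂ := K0ᶜ ∩ v) hK0 hK0U
      (hK0.isClosed.isOpen_compl.inter hu) (hK0.isClosed.isOpen_compl.inter hv) hu1 hv1
      (by
        rw [disjoint_left]
        rintro x ⟨hx1, hx2⟩ ⟨-, hx3⟩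
        have : x ∈ K0ᶜ ∩ (u ∩ v) := ⟨hx1, hx2, hx3⟩
        rw [huv1] at this
        exact this)
      (by
        rw [← inter_union_distrib_left]
        exact (inter_eq_left.mpr huv).symm)
    obtain ⟨y, hy, hyE⟩ := exists_setE hτ hc z
    exact hK0E y (hz hy) hyE

end Q172.JonesC
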