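import Mathlib

/-! # General topology of compact Hausdorff spaces used for Jones's set function -/

open Set Topology TopologicalSpace

namespace Q172.JonesC

variable {S : Type*} [TopologicalSpace S]

/-- In a compact Hausdorff space the component of a point `x` of a closed set `B` can be separated
from a closed set that it misses. -/
theorem split_component [CompactSpace S] [T2Space S] {B G : Set S} (hB : IsClosed B)
    (hG : IsClosed G) {x : S} (hx : x ∈ B) (hd : Disjoint (connectedComponentIn B x) G) :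
    ∃ D D' : Set S, IsClosed D ∧ IsClosed D' ∧ Disjoint D D' ∧ D ∪ D' = B ∧ x ∈ D ∧
      Disjoint D G := by
  classical
  have : CompactSpace B := isCompact_iff_compactSpace.mp hB.isCompact
  have hGB : IsClosed ((↑) ⁻¹' G : Set B) := hG.preimage continuous_subtype_val
  have hempty : ((↑) ⁻¹' G : Set B) ∩ ⋂ s : { s : Set B // IsClopen s ∧ (⟨x, hx⟩ : B) ∈ s }, s.1 = ∅ := by
    rw [← connectedComponent_eq_iInter_isClopen]
    rw [eq_empty_iff_forall_notMem]
    rintro y ⟨hy1, hy2⟩
    refine disjoint_left.mp hd ?_ hy1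
    rw [connectedComponentIn_eq_image hx]
    exact ⟨y, hy2, rfl⟩
  obtain ⟨t, ht⟩ := hGB.isCompact.elim_finite_subfamily_closed
    (fun s : { s : Set B // IsClopen s ∧ (⟨x, hx⟩ : B) ∈ s } => s.1) (fun s => s.2.1.isClosed) hempty
  have hQ : IsClopen (⋂ s ∈ t, (s : Set B)) :=
    ⟨isClosed_biInter fun s _ => s.2.1.isClosed, isOpen_biInter_finset fun s _ => s.2.1.isOpen⟩
  set Q : Set B := ⋂ s ∈ t, (s : Set B) with hQdef
  have hxQ : (⟨x, hx⟩ : B) ∈ Q := mem_iInter₂.mpr fun s _ => s.2.2
  refine ⟨(↑) '' Q, (↑) '' Qᶜ, hB.isClosedEmbedding_subtypeVal.isClosedMap _ hQ.isClosed,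
    hB.isClosedEmbedding_subtypeVal.isClosedMap _ hQ.compl.isClosed, ?_, ?_, ⟨_, hxQ, rfl⟩, ?_⟩
  · rw [disjoint_image_iff Subtype.val_injective]
    exact disjoint_compl_right
  · rw [← image_union, union_compl_self, image_univ, Subtype.range_val]
  · rw [disjoint_left]
    rintro _ ⟨y, hy, rfl⟩ hyG
    have : y ∈ ((↑) ⁻¹' G : Set B) ∩ ⋂ s ∈ t, (s : Set B) := ⟨hyG, hy⟩
    rw [ht] at this
    exact this

/-- Boundary bumping. -/
theorem bump [CompactSpace S] [T2Space S] {K O : Set S} (hK : IsClosed K) (hKc : IsPreconnected K)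
    {y : S} (hy : y ∈ K ∩ closure O) (hn : ¬ K ⊆ O) (hO : IsOpen O) :
    (connectedComponentIn (K ∩ closure O) y ∩ frontier O).Nonempty := by
  by_contra hcon
  rw [not_nonempty_iff_eq_empty, ← disjoint_iff_inter_eq_empty] at hcon
  obtain ⟨D, D', hD, hD', hdis, hun, hyD, hDf⟩ := split_component (hK.inter isClosed_closure)
    isClosed_frontier hy hcon
  have hDO : D ⊆ O := by
    intro d hd
    by_contra hdO
    have hdc : d ∈ closure O := by
      have : d ∈ K ∩ closure O := hun ▸ mem_union_left _ hd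
      exact this.2
    refine disjoint_left.mp hDf hd ?_
    rw [hO.frontier_eq]
    exact ⟨hdc, hdO⟩
  rw [isPreconnected_closed_iff] at hKc
  obtain ⟨k, hkK, hkO⟩ := not_subset.mp hn
  have hKsub : K ⊆ D ∪ (D' ∪ (K ∩ Oᶜ)) := by
    intro z hz
    by_cases hzO : z ∈ O
    · have : z ∈ D ∪ D' := by rw [hun]; exact ⟨hz, subset_closure hzO⟩
      rcases this with h | h
      · exact Or.inl h
      · exact Or.inr (Or.inl h)
    · exact Or.inr (Or.inr ⟨hz, hzO⟩)
  obtain ⟨z, -, hz1, hz2⟩ := hKc D (D' ∪ (K ∩ Oᶜ)) hD (hD'.union (hK.inter hO.isClosed_compl)) hKsub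
    ⟨y, hy.1, hyD⟩ ⟨k, hkK, Or.inr ⟨hkK, hkO⟩⟩
  rcases hz2 with hz2 | hz2
  · exact disjoint_left.mp hdis hz1 hz2
  · exact hz2.2 (hDO hz1)

/-- If every component of the closed set `Y` meets a member of a finite family of connected subsets
of `Y`, then an interior point of `Y` is an interior point of its component. -/
theorem interior_component {Y : Set S} (hY : IsClosed Y) {t : Set (Set S)} (ht : t.Finite)
    (htY : ∀ K ∈ t, K ⊆ Y ∧ IsPreconnected K)
    (h : ∀ y ∈ Y, ∃ K ∈ t, (connectedComponentIn Y y ∩ K).Nonempty) {z : S}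
    (hz : z ∈ interior Y) : z ∈ interior (connectedComponentIn Y z) := by
  classical
  have hclosed : ∀ y, IsClosed (connectedComponentIn Y y) := fun y => by
    by_cases hy : y ∈ Y
    · have h1 : closure (connectedComponentIn Y y) ⊆ connectedComponentIn Y y := by
        apply IsPreconnected.subset_connectedComponentIn
        · exact isPreconnected_connectedComponentIn.closure
        · exact subset_closure (mem_connectedComponentIn hy)
        · exact closure_minimal (connectedComponentIn_subset Y y) hY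
      exact closure_subset_iff_isClosed.mp h1
    · rw [connectedComponentIn_eq_empty hy]; exact isClosed_empty
  -- the union of the components that do not contain `z`
  let C : Set S → Set S := fun K => {y | ∃ k ∈ K, y ∈ connectedComponentIn Y k}
  have hC : ∀ K ∈ t, ∀ k ∈ K, C K = connectedComponentIn Y k := by
    intro K hK k hk
    apply Subset.antisymm
    · rintro y ⟨k', hk', hy⟩
      have : k' ∈ connectedComponentIn Y k :=
        (htY K hK).2.subset_connectedComponentIn hk (htY K hK).1 hk'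
      rw [connectedComponentIn_eq this]
      exact hy
    · intro y hy
      exact ⟨k, hk, hy⟩
  have hCc : ∀ K ∈ t, IsClosed (C K) := by
    intro K hK
    by_cases hne : K.Nonempty
    · obtain ⟨k, hk⟩ := hne
      rw [hC K hK k hk]
      exact hclosed k
    · have : C K = ∅ := by
        rw [eq_empty_iff_forall_notMem]
        rintro y ⟨k, hk, -⟩
        exact hne ⟨k, hk⟩
      rw [this]; exact isClosed_empty
  let t' : Set (Set S) := {K ∈ t | z ∉ C K}
  have ht' : t'.Finite := ht.subset (sep_subset _ _)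
  have hU : IsClosed (⋃ K ∈ t', C K) := ht'.isClosed_biUnion fun K hK => hCc K hK.1
  have hzU : z ∉ ⋃ K ∈ t', C K := by
    intro hcon
    rw [mem_iUnion₂] at hcon
    obtain ⟨K, hK, hzK⟩ := hcon
    exact hK.2 hzK
  rw [mem_interior]
  refine ⟨interior Y ∩ (⋃ K ∈ t', C K)ᶜ, ?_, isOpen_interior.inter hU.isOpen_compl, hz, hzU⟩
  rintro y ⟨hy1, hy2⟩
  obtain ⟨K, hK, w, hw1, hw2⟩ := h y (interior_subset hy1)
  have hyC : y ∈ C K := by
    refine ⟨w, hw2, ?_⟩
    rw [← connectedComponentIn_eq hw1]
    exact mem_connectedComponentIn (interior_subset hy1)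
  by_cases hzK : z ∈ C K
  · rw [hC K hK w hw2] at hyC hzK
    rw [← connectedComponentIn_eq hzK]
    exact hyC
  · exfalso
    apply hy2
    exact mem_iUnion₂.mpr ⟨K, ⟨hK, hzK⟩, hyC⟩

/-- The intersection of a nonempty chain of closed preconnected subsets of a compact Hausdorff
space is preconnected. -/
theorem preconnected_sInter [CompactSpace S] [T2Space S] {c : Set (Set S)} (hne : c.Nonempty)
    (hch : IsChain (· ⊆ ·) c) (hcl : ∀ A ∈ c, IsClosed A) (hpc : ∀ A ∈ c, IsPreconnected A) :
    IsPreconnected (⋂₀ c) := by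
  have hclI : IsClosed (⋂₀ c) := isClosed_sInter hcl
  rw [isPreconnected_iff_subset_of_fully_disjoint_closed hclI]
  intro u v hu hv huv hdis
  obtain ⟨O, O', hO, hO', huO, hvO', hOO'⟩ := SeparatedNhds.of_isCompact_isCompact hu.isCompact
    hv.isCompact hdis
  -- some member of the chain is in `O ∪ O'`
  have hex : ∃ A ∈ c, A ⊆ O ∪ O' := by
    by_contra hcon
    push Not at hcon
    have hdir : DirectedOn (· ⊇ ·) ((fun A => A ∩ (O ∪ O')ᶜ) '' c) := by
      rintro _ ⟨A, hA, rfl⟩ _ ⟨A', hA', rfl⟩
      rcases hch.total hA hA' with h | h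
      · exact ⟨_, ⟨A, hA, rfl⟩, Subset.rfl, inter_subset_inter_left _ h⟩
      · exact ⟨_, ⟨A', hA', rfl⟩, inter_subset_inter_left _ h, Subset.rfl⟩
    have hcl' : ∀ B ∈ (fun A => A ∩ (O ∪ O')ᶜ) '' c, IsClosed B := by
      rintro _ ⟨A, hA, rfl⟩
      exact (hcl A hA).inter (hO.union hO').isClosed_compl
    have hne' : ((fun A => A ∩ (O ∪ O')ᶜ) '' c).Nonempty := hne.image _
    have := hne'.to_subtype
    have := IsCompact.nonempty_sInter_of_directed_nonempty_isCompact_isClosed hdir
      (by
        rintro _ ⟨A, hA, rfl⟩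
        obtain ⟨a, ha1, ha2⟩ := not_subset.mp (hcon A hA)
        exact ⟨a, ha1, ha2⟩)
      (fun B hB => (hcl' B hB).isCompact) hcl'
    obtain ⟨z, hz⟩ := this
    have hzI : z ∈ ⋂₀ c := fun A hA => (hz _ ⟨A, hA, rfl⟩).1
    obtain ⟨A, hA⟩ := hne
    refine (hz _ ⟨A, hA, rfl⟩).2 ?_
    rcases huv hzI with h | h
    · exact Or.inl (huO h)
    · exact Or.inr (hvO' h)
  obtain ⟨A, hA, hAO⟩ := hex
  have hOO : A ∩ (O ∩ O') = ∅ := by
    rw [disjoint_iff_inter_eq_empty.mp hOO', inter_empty]
  rcases isPreconnected_iff_subset_of_disjoint.mp (hpc A hA) O O' hO hO' hAO hOO with h | h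
  · left
    intro z hz
    rcases huv hz with h' | h'
    · exact h'
    · exact (disjoint_left.mp hOO' (h (hz A hA)) (hvO' h')).elim
  · right
    intro z hz
    rcases huv hz with h' | h'
    · exact (disjoint_left.mp hOO' (huO h') (h (hz A hA))).elim
    · exact h'

/-- If `K` is a closed connected subset of a connected space and the complement of `K` is the union
of two disjoint open sets `G₁`, `G₂`, then the complement of `G₂` is connected. -/
theorem preconnected_cut [PreconnectedSpace S] {K G₁ G₂ : Set S}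
    (hKc : IsPreconnected K) (hne : K.Nonempty) (h1 : IsOpen G₁) (h2 : IsOpen G₂)
    (hd : Disjoint G₁ G₂) (hun : Kᶜ = G₁ ∪ G₂) : IsPreconnected G₂ᶜ := by
  have hKG : K ⊆ G₂ᶜ := fun x hx hx2 => by
    have : x ∈ Kᶜ := by rw [hun]; exact Or.inr hx2
    exact this hx
  rw [isPreconnected_iff_subset_of_fully_disjoint_closed h2.isClosed_compl]
  -- the key: a closed piece that misses `K` is clopen
  have key : ∀ u v : Set S, IsClosed u → IsClosed v → G₂ᶜ ⊆ u ∪ v → Disjoint u v → K ⊆ u →
      G₂ᶜ ⊆ u := by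
    intro u v hu hv huv hdis hKu
    have hclopen : IsClopen (G₂ᶜ ∩ v) := by
      refine ⟨h2.isClosed_compl.inter hv, ?_⟩
      have : G₂ᶜ ∩ v = G₁ ∩ uᶜ := by
        ext x
        constructor
        · rintro ⟨hx1, hx2⟩
          have hxu : x ∉ u := fun h => disjoint_left.mp hdis h hx2
          have hxK : x ∈ Kᶜ := fun h => hxu (hKu h)
          rw [hun] at hxK
          rcases hxK with h | h
          · exact ⟨h, hxu⟩
          · exact (hx1 h).elim
        · rintro ⟨hx1, hx2⟩
          have hx3 : x ∈ G₂ᶜ := fun h => disjoint_left.mp hd hx1 h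
          rcases huv hx3 with h | h
          · exact (hx2 h).elim
          · exact ⟨hx3, h⟩
      rw [this]
      exact h1.inter hu.isOpen_compl
    rcases isClopen_iff.mp hclopen with h | h
    · intro x hx
      rcases huv hx with h' | h'
      · exact h'
      · have : x ∈ G₂ᶜ ∩ v := ⟨hx, h'⟩
        rw [h] at this
        exact this.elim
    · exfalso
      obtain ⟨k, hk⟩ := hne
      have : k ∈ G₂ᶜ ∩ v := by rw [h]; trivial
      exact disjoint_left.mp hdis (hKu hk) this.2
  intro u v hu hv huv hdis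
  have hK2 := isPreconnected_iff_subset_of_disjoint_closed.mp hKc u v hu hv (hKG.trans huv)
    (by rw [disjoint_iff_inter_eq_empty.mp hdis, inter_empty])
  rcases hK2 with h | h
  · exact Or.inl (key u v hu hv huv hdis h)
  · exact Or.inr (key v u hv hu (by rwa [union_comm]) hdis.symm h)

end Q172.JonesC
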